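import Pool.Agent.Q211.MM.Basic

/-!
# Project MM (helper147), job A5
-/

set_option autoImplicit false

namespace Pool.Agent.Q211.MM

open Finset Filter Topology
open Pool.Agent.Q147.MM

theorem le_zz {N y : ℕ} (hN : 16 ^ 8 ≤ N) (hy : y ^ 4 ≤ N) : y ≤ zz N := by
  by_contra h
  push Not at h
  have h1 := le_zz_pow hN
  have h2 : zz N ^ 4 < y ^ 4 := Nat.pow_lt_pow_left h (by norm_num)
  omega

theorem t_A5 : S_A5 := by
  classical
  intro hA1 hA2 hA3 hA4 κ hκ0 hκ1 hI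
  obtain ⟨I, hP⟩ := hI
  set P : ℝ := ∑ i ∈ range I, (1 / 2 : ℝ) ^ ((i : ℝ) + 1 - κ) / ((i : ℝ) + 1 - κ) with hPdef
  obtain ⟨ε, hε⟩ : ∃ ε : ℝ, ε = (P - 1) / (4 * P) := ⟨_, rfl⟩
  have hP0 : 0 < P := by linarith
  have hε0 : 0 < ε := by
    rw [hε]
    apply div_pos <;> linarith
  have hεP : ε * P = (P - 1) / 4 := by
    rw [hε]
    field_simp
  have hε1 : ε < 1 / 4 := by
    rw [hε, div_lt_iff₀ (by linarith)]
    linarith
  have h3 : 1 < (1 - ε) ^ 3 * P := by
    have h1 : 1 - 3 * ε ≤ (1 - ε) ^ 3 := by nlinarith [sq_nonneg ε, pow_pos hε0 3]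
    have h2 : (1 - 3 * ε) * P ≤ (1 - ε) ^ 3 * P := mul_le_mul_of_nonneg_right h1 hP0.le
    nlinarith
  obtain ⟨y1, hy3, hA2'⟩ := hA2 κ hκ0 hκ1 ε hε0 (by linarith)
  obtain ⟨N1, hA1'⟩ := hA1 κ hκ0 hκ1 I y1 ε hε0 (by linarith)
  obtain ⟨N3, hA3'⟩ := hA3 ε hε0
  refine ⟨(1 - ε) ^ 3 * P - 1, by linarith, max (max N1 N3) (max (16 ^ 8) (y1 ^ 4)), ?_⟩
  intro N hN c hc B hB
  have hN1 : N1 ≤ N := (le_max_left _ _).trans ((le_max_left _ _).trans hN)
  have hN3 : N3 ≤ N := (le_max_right _ _).trans ((le_max_left _ _).trans hN)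
  have hN8 : 16 ^ 8 ≤ N := (le_max_left _ _).trans ((le_max_right _ _).trans hN)
  have hNy : y1 ^ 4 ≤ N := (le_max_right _ _).trans ((le_max_right _ _).trans hN)
  have hNt : 3 ≤ N := by omega
  have hN0 : (0 : ℝ) < N := by
    have : 0 < N := by omega
    exact_mod_cast this
  have hlogN := log_gt_one hNt
  have hy1z : y1 ≤ zz N := le_zz hN8 hNy
  have hzN : zz N < N := zz_lt hNt
  set f : ℕ → ℝ := fun a => (Nat.primeCounting (N / a) : ℝ) with hf
  set g : ℕ → ℝ := fun y => c * (y / (Real.log y) ^ κ) with hg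
  have hlogpos : ∀ y : ℕ, 3 ≤ y → 0 < (Real.log y) ^ κ := fun y hy =>
    Real.rpow_pos_of_pos (lt_trans one_pos (log_gt_one hy)) κ
  have h4 := hA4 B f g y1 (zz N) (by omega) hy1z
    (fun y hy1 hy2 => hB y (by omega) (by omega))
    (fun y hy1 hy2 => by
      simp only [hf]
      have : N / (y + 1) ≤ N / y := Nat.div_le_div_left (by omega) (by omega)
      exact_mod_cast Nat.monotone_primeCounting this)
    (Nat.cast_nonneg _)
    (by
      simp only [hg]
      have := hlogpos y1 hy3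
      positivity)
  refine le_trans ?_ h4
  have hterm : ∀ y ∈ Ioc y1 (zz N), c * (1 - ε) ^ 2 * N *
      (1 / ((y : ℝ) * (Real.log y) ^ κ * Real.log ((N : ℝ) / y))) ≤ (g y - g (y - 1)) * f y := by
    intro y hy
    rw [Finset.mem_Ioc] at hy
    have hy3' : 3 ≤ y := by omega
    have hy0 : (0 : ℝ) < y := by
      have : 0 < y := by omega
      exact_mod_cast this
    have hyl := hlogpos y hy3'
    have hlogNy : 0 < Real.log ((N : ℝ) / y) := by
      apply Real.log_pos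
      rw [lt_div_iff₀ hy0, one_mul]
      have : y < N := by omega
      exact_mod_cast this
    have e1 : c * ((1 - ε) / (Real.log y) ^ κ) ≤ g y - g (y - 1) := by
      have h5 := mul_le_mul_of_nonneg_left (hA2' y (by omega)) hc
      have h6 : ((y - 1 : ℕ) : ℝ) = (y : ℝ) - 1 := by
        rw [Nat.cast_sub (by omega)]
        norm_num
      simp only [hg]
      rw [h6, ← mul_sub]
      exact h5
    have e2 := hA3' N hN3 y (by omega) hy.2
    have e3 : 0 ≤ c * ((1 - ε) / (Real.log y) ^ κ) :=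
      mul_nonneg hc (div_nonneg (by linarith) hyl.le)
    have e4 : 0 ≤ (1 - ε) * ((N : ℝ) / y) / Real.log ((N : ℝ) / y) :=
      div_nonneg (mul_nonneg (by linarith) (by positivity)) hlogNy.le
    have e5 := mul_le_mul e1 e2 e4 (e3.trans e1)
    refine le_trans (le_of_eq ?_) e5
    field_simp
  have hsum := Finset.sum_le_sum hterm
  refine le_trans ?_ hsum
  rw [← Finset.mul_sum]
  have h6 := hA1' N hN1
  have h7 : c * (1 - ε) ^ 2 * N * ((1 - ε) * P / (Real.log N) ^ κ) ≤ c * (1 - ε) ^ 2 * N *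
      ∑ y ∈ Ioc y1 (zz N), 1 / ((y : ℝ) * (Real.log y) ^ κ * Real.log ((N : ℝ) / y)) :=
    mul_le_mul_of_nonneg_left h6 (by positivity)
  refine le_trans (le_of_eq ?_) h7
  ring

end Pool.Agent.Q211.MM
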