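import Pool.Agent.Q211.MM.Basic

/-!
# Project MM (helper147), job A6
-/

set_option autoImplicit false

namespace Pool.Agent.Q211.MM

open Finset Filter Topology
open Pool.Agent.Q147.MM

theorem t_A6 : S_A6 := by
  classical
  intro hCH κ hκ0 hκ1 hA5 B hB1 hB2
  obtain ⟨c0, C0, hc0, -, hch⟩ := hCH
  obtain ⟨δ, hδ, N1, hA⟩ := hA5
  obtain ⟨N2, hN2⟩ := exists_nat_ge (Real.exp (1 / (c0 * δ)))
  set N0 : ℕ := max (max N1 3) N2 with hN0
  have hN0a : N1 ≤ N0 := (le_max_left _ _).trans (le_max_left _ _)
  have hN0b : 3 ≤ N0 := (le_max_right _ _).trans (le_max_left _ _)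
  have hN0c : N2 ≤ N0 := le_max_right _ _
  have hl0 : 1 < Real.log N0 := log_gt_one hN0b
  have hlog0 : 1 ≤ c0 * δ * Real.log N0 := by
    have h1 : Real.exp (1 / (c0 * δ)) ≤ N0 := hN2.trans (by exact_mod_cast hN0c)
    have h2 : 1 / (c0 * δ) ≤ Real.log N0 := by
      rw [Real.le_log_iff_exp_le (by linarith [Real.exp_pos (1 / (c0 * δ))])]
      exact h1
    rw [div_le_iff₀ (by positivity)] at h2
    linarith
  have hl00 : 0 < Real.log N0 := by linarith
  have hc : 0 < c0 * (Real.log N0) ^ (κ - 1) := by positivity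
  refine ⟨c0 * (Real.log N0) ^ (κ - 1), hc, fun N => ?_⟩
  induction N using Nat.strong_induction_on with
  | _ N ih =>
    intro hN
    have hNr : (2 : ℝ) ≤ N := by exact_mod_cast hN
    have hlN : 0 < Real.log N := Real.log_pos (by linarith)
    by_cases hcase : N ≤ N0
    · have h1 : (Nat.primeCounting N : ℝ) ≤ cnt B N := by exact_mod_cast hB1 N
      refine le_trans ?_ ((hch N hN).1.trans h1)
      have h2 : Real.log N ≤ Real.log N0 := Real.log_le_log (by linarith) (by exact_mod_cast hcase)
      have h3 : (Real.log N0) ^ (κ - 1) ≤ (Real.log N) ^ (κ - 1) :=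
        Real.rpow_le_rpow_of_nonpos hlN h2 (by linarith)
      have h4 : (Real.log N) ^ κ = (Real.log N) ^ (κ - 1) * Real.log N := by
        rw [← Real.rpow_add_one hlN.ne']
        congr 1
        ring
      have h5 : 0 < (Real.log N) ^ (κ - 1) := by positivity
      rw [h4, mul_assoc]
      apply mul_le_mul_of_nonneg_left _ hc0.le
      calc (Real.log N0) ^ (κ - 1) * (N / ((Real.log N) ^ (κ - 1) * Real.log N)) ≤
            (Real.log N) ^ (κ - 1) * (N / ((Real.log N) ^ (κ - 1) * Real.log N)) :=
            mul_le_mul_of_nonneg_right h3 (by positivity)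
        _ = N / Real.log N := by field_simp
    · push Not at hcase
      have h1 := hA N (by omega) _ hc.le B (fun y hy1 hy2 => ih y hy2 hy1)
      have h2 : (∑ a ∈ upto B (zz N), (Nat.primeCounting (N / a) : ℝ)) ≤
          cnt B N + (zz N : ℝ) ^ 2 := by exact_mod_cast hB2 (zz N) N
      have h3 := zz_sq_le (show 3 ≤ N by omega)
      have h4 : (N : ℝ) / Real.log N ^ 2 ≤
          δ * (c0 * (Real.log N0) ^ (κ - 1)) * (N / (Real.log N) ^ κ) := by
        have e1 : (Real.log N) ^ κ = (Real.log N) ^ (κ - 2) * Real.log N ^ 2 := by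
          rw [← Real.rpow_natCast, ← Real.rpow_add hlN]
          congr 1
          push_cast
          ring
        have e2 : (Real.log N0) ^ (κ - 1) = (Real.log N0) ^ (κ - 2) * Real.log N0 := by
          rw [← Real.rpow_add_one hl00.ne']
          congr 1
          ring
        have e3 : (Real.log N) ^ (κ - 2) ≤ (Real.log N0) ^ (κ - 2) := by
          apply Real.rpow_le_rpow_of_nonpos hl00 _ (by linarith)
          have hN0r : (3 : ℝ) ≤ N0 := by exact_mod_cast hN0b
          apply Real.log_le_log (by linarith)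
          exact_mod_cast hcase.le
        have e4 : 0 < (Real.log N) ^ (κ - 2) := by positivity
        have e5 : (Real.log N) ^ (κ - 2) ≤ δ * (c0 * (Real.log N0) ^ (κ - 1)) := by
          calc (Real.log N) ^ (κ - 2) ≤ (Real.log N0) ^ (κ - 2) := e3
            _ = 1 * (Real.log N0) ^ (κ - 2) := (one_mul _).symm
            _ ≤ (c0 * δ * Real.log N0) * (Real.log N0) ^ (κ - 2) :=
              mul_le_mul_of_nonneg_right hlog0 (by positivity)
            _ = δ * (c0 * (Real.log N0) ^ (κ - 1)) := by
              rw [e2]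
              ring
        calc (N : ℝ) / Real.log N ^ 2 = (Real.log N) ^ (κ - 2) * (N / (Real.log N) ^ κ) := by
              rw [e1]
              field_simp
          _ ≤ _ := mul_le_mul_of_nonneg_right e5 (by positivity)
      have h5 : (1 + δ) * (c0 * (Real.log N0) ^ (κ - 1)) * (N / (Real.log N) ^ κ) =
          c0 * (Real.log N0) ^ (κ - 1) * (N / (Real.log N) ^ κ) +
            δ * (c0 * (Real.log N0) ^ (κ - 1)) * (N / (Real.log N) ^ κ) := by ring
      rw [h5] at h1
      linarith

end Pool.Agent.Q211.MM
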