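import Pool.Agent.Q211.MM.D3

/-!
# Project MM (helper147), job C1
-/

set_option autoImplicit false

namespace Pool.Agent.Q211.MM

open Finset Filter Topology
open Pool.Agent.Q147.MM

/-- the integer part of a quotient is at least half of it -/
theorem half_div {N a : ℕ} (ha : 1 ≤ a) (h : 1 ≤ N / a) : (N : ℝ) / a / 2 ≤ ((N / a : ℕ) : ℝ) := by
  have ha0 : (0 : ℝ) < a := by exact_mod_cast ha
  have h1 : N < (N / a + 1) * a := by
    have e1 := Nat.div_add_mod N a
    have e2 := Nat.mod_lt N (show 0 < a by omega)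
    calc N = a * (N / a) + N % a := e1.symm
      _ < a * (N / a) + a := by omega
      _ = (N / a + 1) * a := by ring
  have h2 : (N : ℝ) < (((N / a : ℕ) : ℝ) + 1) * a := by exact_mod_cast h1
  have h3 : (1 : ℝ) ≤ ((N / a : ℕ) : ℝ) := by exact_mod_cast h
  rw [div_div, div_le_iff₀ (by positivity)]
  nlinarith

theorem t_C1 : S_C1 := by
  classical
  intro hCH hB2 hdbl k
  obtain ⟨c0, C0, hc0, -, hch⟩ := hCH
  obtain ⟨C, hC, hd⟩ := hdbl k 4
  refine ⟨c0 / (2 * C * (k + 1)), by positivity, 4, fun N hN => ?_⟩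
  obtain ⟨g1, g2, g3⟩ := sqrt_pow_four hN
  set w := Nat.sqrt N with hw
  have hN0 : (0 : ℝ) < N := by
    have : 0 < N := by omega
    exact_mod_cast this
  have hlogN : 0 < Real.log N := Real.log_pos (by
    have : (4 : ℝ) ≤ N := by exact_mod_cast hN
    linarith)
  have hterm : ∀ a ∈ upto (Sk k) w, c0 / 2 * (N / Real.log N) * (1 / (a : ℝ)) ≤
      (Nat.primeCounting (N / a) : ℝ) := by
    intro a ha
    rw [mem_upto] at ha
    have ha0 : (0 : ℝ) < a := by exact_mod_cast ha.1.1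
    have h1 : w ≤ N / a := by
      rw [Nat.le_div_iff_mul_le ha.1.1]
      calc w * a ≤ w * w := Nat.mul_le_mul_left _ ha.1.2
        _ = w ^ 2 := by ring
        _ ≤ N := g2
    have h2 : 2 ≤ N / a := g1.trans h1
    have h3 := (hch (N / a) h2).1
    have h4 := half_div ha.1.1 (show 1 ≤ N / a by omega)
    have h5 : ((N / a : ℕ) : ℝ) ≤ N := by exact_mod_cast Nat.div_le_self N a
    have h6 : (2 : ℝ) ≤ ((N / a : ℕ) : ℝ) := by exact_mod_cast h2
    have h7 : 0 < Real.log ((N / a : ℕ) : ℝ) := Real.log_pos (by linarith)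
    have h8 : Real.log ((N / a : ℕ) : ℝ) ≤ Real.log N := Real.log_le_log (by linarith) h5
    refine le_trans ?_ h3
    have h9 : (N : ℝ) / a / 2 / Real.log N ≤ ((N / a : ℕ) : ℝ) / Real.log ((N / a : ℕ) : ℝ) :=
      div_le_div₀ (by linarith) h4 h7 h8
    calc c0 / 2 * (N / Real.log N) * (1 / (a : ℝ)) = c0 * ((N : ℝ) / a / 2 / Real.log N) := by
          field_simp
      _ ≤ _ := mul_le_mul_of_nonneg_left h9 hc0.le
  have hsum : c0 / 2 * (N / Real.log N) * T k w ≤ (k + 1) * (cnt (Sk (k + 1)) N : ℝ) := by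
    have h1 := hB2 k w N
    have h2 : (∑ a ∈ upto (Sk k) w, (Nat.primeCounting (N / a) : ℝ)) ≤
        (k + 1) * (cnt (Sk (k + 1)) N : ℝ) := by exact_mod_cast h1
    refine le_trans ?_ h2
    rw [T, Finset.mul_sum]
    exact Finset.sum_le_sum hterm
  have hTw : T k N ≤ C * T k w := (T_mono k g3).trans (hd w (by omega))
  have h3 : c0 / 2 * (N / Real.log N) * T k N ≤ C * ((k + 1) * (cnt (Sk (k + 1)) N : ℝ)) := by
    calc c0 / 2 * (N / Real.log N) * T k N ≤ c0 / 2 * (N / Real.log N) * (C * T k w) :=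
          mul_le_mul_of_nonneg_left hTw (by positivity)
      _ = C * (c0 / 2 * (N / Real.log N) * T k w) := by ring
      _ ≤ _ := mul_le_mul_of_nonneg_left hsum hC.le
  have h4 : c0 / (2 * C * (k + 1)) * (N / Real.log N) * T k N =
      (c0 / 2 * (N / Real.log N) * T k N) / (C * (k + 1)) := by
    field_simp
  rw [h4, div_le_iff₀ (by positivity)]
  linarith

end Pool.Agent.Q211.MM
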