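import Pool.Agent.Q211.MM.Basic

/-!
# Project MM (helper147), job D0
-/

set_option autoImplicit false

namespace Pool.Agent.Q211.MM

open Finset Filter Topology
open Pool.Agent.Q147.MM

theorem t_D0 : S_D0 := by
  classical
  intro hM1 k M
  obtain ⟨C, hC, hsum⟩ := hM1 (k + 1) M (by omega)
  refine ⟨C, hC, fun x y hx hy => ?_⟩
  set S := (upto (Sk (k + 1)) y).filter (fun n => x < n) with hS
  set P := (Icc 1 (x ^ M)).filter (fun p => Nat.Prime p ∧ x < p ^ (k + 1)) with hP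
  have hS2 : ∀ n ∈ S, 2 ≤ n ∧ n ≤ y ∧ n ∈ Sk (k + 1) ∧ x < n := by
    intro n hn
    rw [hS, Finset.mem_filter, mem_upto] at hn
    exact ⟨by omega, hn.1.1.2, hn.1.2, hn.2⟩
  set φ : ℕ → ℕ × ℕ := fun n => (gpf n, n / gpf n) with hφ
  have hmul : ∀ n ∈ S, gpf n * (n / gpf n) = n := fun n hn =>
    Nat.mul_div_cancel' (gpf_spec (hS2 n hn).1).2.1
  have hinj : Set.InjOn φ S := by
    intro n hn n' hn' h
    rw [← hmul n hn, ← hmul n' hn']
    simp only [hφ, Prod.mk.injEq] at h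
    rw [h.1, ← h.1, h.2]
    rw [← h.1]
  have himg : S.image φ ⊆ P ×ˢ upto (Sk k) y := by
    intro z hz
    rw [Finset.mem_image] at hz
    obtain ⟨n, hn, rfl⟩ := hz
    obtain ⟨h1, h2, h3, h4⟩ := hS2 n hn
    obtain ⟨g1, g2, g3⟩ := gpf_spec h1
    have hdvd := hmul n hn
    have hpos : 1 ≤ n / gpf n := Nat.div_pos (Nat.le_of_dvd (by omega) g2) g1.pos
    rw [Finset.mem_product]
    refine ⟨?_, mem_upto.2 ⟨⟨hpos, (Nat.div_le_self _ _).trans h2⟩, div_mem_Sk h3 g1 g2⟩⟩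
    rw [hP, Finset.mem_filter, Finset.mem_Icc]
    refine ⟨⟨g1.one_lt.le, ((Nat.le_of_dvd (by omega) g2).trans h2).trans hy⟩, g1, ?_⟩
    exact lt_of_lt_of_le h4 (le_pow_of_factors (by omega) g1.one_lt.le h3.2 g3)
  calc ∑ n ∈ S, (1 : ℝ) / n = ∑ n ∈ S, (1 / ((φ n).1 : ℝ)) * (1 / ((φ n).2 : ℝ)) := by
        refine Finset.sum_congr rfl fun n hn => ?_
        have h1 : (n : ℝ) = (gpf n : ℝ) * ((n / gpf n : ℕ) : ℝ) := by exact_mod_cast (hmul n hn).symm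
        simp only [hφ]
        rw [one_div_mul_one_div, ← h1]
    _ = ∑ z ∈ S.image φ, (1 / (z.1 : ℝ)) * (1 / (z.2 : ℝ)) := by
        rw [Finset.sum_image hinj]
    _ ≤ ∑ z ∈ P ×ˢ upto (Sk k) y, (1 / (z.1 : ℝ)) * (1 / (z.2 : ℝ)) :=
        Finset.sum_le_sum_of_subset_of_nonneg himg fun _ _ _ => by positivity
    _ = (∑ p ∈ P, 1 / (p : ℝ)) * T k y := by
        rw [Finset.sum_product, T, Finset.sum_mul_sum]
    _ ≤ C * T k y := mul_le_mul_of_nonneg_right (hsum x hx) (T_nonneg _ _)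

end Pool.Agent.Q211.MM
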