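import Pool.Agent.Q211.MM.Basic

/-!
# Project MM (helper147), job D3
-/

set_option autoImplicit false

namespace Pool.Agent.Q211.MM

open Finset Filter Topology
open Pool.Agent.Q147.MM

theorem sp_tendsto : Tendsto sp atTop atTop := by
  classical
  have h0 : ∀ n : ℕ, 0 ≤ Set.indicator {p : ℕ | Nat.Prime p} (fun n : ℕ => (1 : ℝ) / n) n :=
    fun n => Set.indicator_nonneg (fun _ _ => by positivity) n
  have h1 := (not_summable_iff_tendsto_nat_atTop_of_nonneg h0).1 not_summable_one_div_on_primes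
  have h2 := h1.comp (tendsto_add_atTop_nat 1)
  refine h2.congr fun x => ?_
  simp only [Function.comp_apply]
  rw [sp, Finset.sum_filter, ← Finset.sum_subset (show Icc 1 x ⊆ range (x + 1) by
    intro a ha
    rw [Finset.mem_Icc] at ha
    rw [Finset.mem_range]
    omega)]
  · refine Finset.sum_congr rfl fun p _ => ?_
    by_cases hp : p.Prime
    · rw [if_pos hp, Set.indicator_of_mem (by exact hp)]
    · rw [if_neg hp, Set.indicator_of_notMem (by exact hp)]
  · intro a ha hna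
    have h3 : a = 0 := by
      rw [Finset.mem_range] at ha
      rw [Finset.mem_Icc] at hna
      omega
    subst h3
    rw [Set.indicator_of_notMem]
    exact Nat.not_prime_zero

theorem sqrt_pow_four {x : ℕ} (hx : 4 ≤ x) : 2 ≤ Nat.sqrt x ∧ Nat.sqrt x ^ 2 ≤ x ∧
    x ≤ Nat.sqrt x ^ 4 := by
  have h1 : 2 ≤ Nat.sqrt x := Nat.le_sqrt.2 (by omega)
  have h2 : Nat.sqrt x ^ 2 ≤ x := Nat.sqrt_le' x
  have h3 : x < (Nat.sqrt x + 1) ^ 2 := Nat.lt_succ_sqrt' x
  refine ⟨h1, h2, ?_⟩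
  have h4 : (Nat.sqrt x + 1) ≤ Nat.sqrt x ^ 2 := by nlinarith
  have h5 : (Nat.sqrt x + 1) ^ 2 ≤ (Nat.sqrt x ^ 2) ^ 2 := Nat.pow_le_pow_left h4 2
  have h6 : (Nat.sqrt x ^ 2) ^ 2 = Nat.sqrt x ^ 4 := by ring
  omega

theorem sqrt_tendsto : Tendsto Nat.sqrt atTop atTop := by
  rw [tendsto_atTop]
  intro b
  filter_upwards [eventually_ge_atTop (b * b)] with x hx
  exact Nat.le_sqrt.2 hx

theorem t_D3 : S_D3 := by
  intro hB3 hdbl k
  obtain ⟨C, hC, hd⟩ := hdbl k 4
  have h1 : Tendsto (fun x : ℕ => C * (k + 1) / sp (Nat.sqrt x)) atTop (𝓝 0) :=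
    Tendsto.const_div_atTop (sp_tendsto.comp sqrt_tendsto) _
  refine squeeze_zero' (Eventually.of_forall fun x => div_nonneg (T_nonneg _ _) (T_nonneg _ _)) ?_ h1
  filter_upwards [eventually_ge_atTop 4, (sp_tendsto.comp sqrt_tendsto).eventually_gt_atTop 0]
    with x hx hsp
  simp only [Function.comp_apply] at hsp
  obtain ⟨g1, g2, g3⟩ := sqrt_pow_four hx
  have hT : 0 < T (k + 1) x := lt_of_lt_of_le one_pos (one_le_T _ (by omega))
  rw [div_le_div_iff₀ hT hsp]
  have h2 : T k x ≤ C * T k (Nat.sqrt x) := (T_mono k g3).trans (hd _ (by omega))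
  have h3 := hB3 k (Nat.sqrt x)
  have h4 := T_mono (k + 1) g2
  calc T k x * sp (Nat.sqrt x) ≤ C * T k (Nat.sqrt x) * sp (Nat.sqrt x) :=
        mul_le_mul_of_nonneg_right h2 hsp.le
    _ = C * (T k (Nat.sqrt x) * sp (Nat.sqrt x)) := by ring
    _ ≤ C * ((k + 1) * T (k + 1) (Nat.sqrt x ^ 2)) := mul_le_mul_of_nonneg_left h3 hC.le
    _ ≤ C * ((k + 1) * T (k + 1) x) := by
        apply mul_le_mul_of_nonneg_left _ hC.le
        exact mul_le_mul_of_nonneg_left h4 (by positivity)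
    _ = C * (k + 1) * T (k + 1) x := by ring

end Pool.Agent.Q211.MM
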