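import Pool.Agent.Q211.MM.Basic

/-!
# Project MM (helper147), job R1
-/

set_option autoImplicit false

namespace Pool.Agent.Q211.MM

open Finset Filter Topology
open Pool.Agent.Q147.MM

/-- `f ≤ t < f + 1`, `f ≥ 2`: the logarithms differ at most by a factor 2 -/
theorem div_log_le {t : ℝ} {f : ℕ} (hf : 2 ≤ f) (h1 : (f : ℝ) ≤ t) (h2 : t < f + 1) :
    (f : ℝ) / Real.log f ≤ 2 * (t / Real.log t) := by
  have hf' : (2 : ℝ) ≤ f := by exact_mod_cast hf
  have hlf : 0 < Real.log f := Real.log_pos (by linarith)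
  have hlt : 0 < Real.log t := Real.log_pos (by linarith)
  have h3 : Real.log t ≤ 2 * Real.log f := by
    rw [show (2 : ℝ) * Real.log f = Real.log ((f : ℝ) ^ 2) by rw [Real.log_pow]; norm_num]
    apply Real.log_le_log (by linarith)
    nlinarith
  have h4 : (f : ℝ) / Real.log f ≤ t / (Real.log t / 2) :=
    div_le_div₀ (by linarith) h1 (by linarith) (by linarith)
  calc (f : ℝ) / Real.log f ≤ t / (Real.log t / 2) := h4
    _ = 2 * (t / Real.log t) := by
      field_simp

theorem card_primes (n : ℕ) : ((Icc 1 n).filter Nat.Prime).card = Nat.primeCounting n := by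
  rw [Nat.primeCounting, Nat.primeCounting', Nat.count_eq_card_filter_range]
  congr 1
  ext p
  simp only [Finset.mem_filter, Finset.mem_Icc, Finset.mem_range]
  constructor
  · rintro ⟨⟨_, h1⟩, h2⟩
    exact ⟨by omega, h2⟩
  · rintro ⟨h1, h2⟩
    exact ⟨⟨h2.one_lt.le, by omega⟩, h2⟩

theorem t_R1 : S_R1 := by
  classical
  intro hCH hD0 k
  obtain ⟨c0, C0, -, hC0, hch⟩ := hCH
  obtain ⟨C', hC', hd⟩ := hD0 k 4
  refine ⟨2 * C0 * (k + 2) * C', by positivity, 16 ^ 8, fun N hN => ?_⟩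
  have hN3 : 3 ≤ N := by omega
  have hN0 : (0 : ℝ) < N := by
    have : 0 < N := by omega
    exact_mod_cast this
  have hlogN := log_gt_one hN3
  have hz4 := le_zz_pow hN
  have hz1 : 1 ≤ zz N := by
    by_contra h
    have : zz N = 0 := by omega
    rw [this] at hz4
    simp at hz4
    omega
  -- the members of the bad set
  set S := Bad (k + 2) N with hS
  have hmemS : ∀ n ∈ S, 2 ≤ n ∧ n ≤ N ∧ n ∈ Sk (k + 2) ∧
      ∀ p : ℕ, p.Prime → p ∣ n → zz N < n / p := by
    intro n hn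
    rw [hS, Bad, Finset.mem_filter, mem_upto] at hn
    have h1 := hn.2.1
    have h2 := hn.1.1.1
    exact ⟨by omega, hn.1.1.2, hn.1.2, hn.2.2⟩
  set M' := (upto (Sk (k + 1)) N).filter
    (fun m => zz N < m ∧ m ^ (k + 2) ≤ N ^ (k + 1) ∧ 2 ≤ N / m) with hM'
  have hmaps : ∀ n ∈ S, n / gpf n ∈ M' := by
    intro n hn
    obtain ⟨h1, h2, h3, h4⟩ := hmemS n hn
    obtain ⟨g1, g2, g3⟩ := gpf_spec h1
    have hmul : gpf n * (n / gpf n) = n := Nat.mul_div_cancel' g2
    have hpos : 1 ≤ n / gpf n := Nat.div_pos (Nat.le_of_dvd (by omega) g2) g1.pos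
    have hSk : n / gpf n ∈ Sk (k + 1) := div_mem_Sk h3 g1 g2
    rw [hM', Finset.mem_filter]
    refine ⟨mem_upto.2 ⟨⟨hpos, (Nat.div_le_self _ _).trans h2⟩, hSk⟩, h4 _ g1 g2, ?_, ?_⟩
    · have h5 : n / gpf n ≤ gpf n ^ (k + 1) := by
        refine le_pow_of_factors (by omega) g1.one_lt.le hSk.2 fun q hq hqn => g3 q hq ?_
        exact hqn.trans (Nat.div_dvd_of_dvd g2)
      calc (n / gpf n) ^ (k + 2) = (n / gpf n) ^ (k + 1) * (n / gpf n) := pow_succ _ _
        _ ≤ (n / gpf n) ^ (k + 1) * gpf n ^ (k + 1) := Nat.mul_le_mul_left _ h5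
        _ = (gpf n * (n / gpf n)) ^ (k + 1) := by rw [mul_pow, mul_comm]
        _ = n ^ (k + 1) := by rw [hmul]
        _ ≤ N ^ (k + 1) := Nat.pow_le_pow_left h2 _
    · rw [Nat.le_div_iff_mul_le (by omega)]
      calc 2 * (n / gpf n) ≤ gpf n * (n / gpf n) := Nat.mul_le_mul_right _ g1.two_le
        _ = n := hmul
        _ ≤ N := h2
  have hcard := Finset.card_eq_sum_card_fiberwise hmaps
  have hfib : ∀ m ∈ M', (S.filter (fun n => n / gpf n = m)).card ≤ Nat.primeCounting (N / m) := by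
    intro m hm
    rw [hM', Finset.mem_filter, mem_upto] at hm
    rw [← card_primes]
    refine Finset.card_le_card_of_injOn gpf ?_ ?_
    · intro n hn
      rw [Finset.mem_coe, Finset.mem_filter] at hn
      obtain ⟨h1, h2, h3, h4⟩ := hmemS n hn.1
      obtain ⟨g1, g2, g3⟩ := gpf_spec h1
      have hmul : gpf n * (n / gpf n) = n := Nat.mul_div_cancel' g2
      rw [hn.2] at hmul
      rw [Finset.mem_coe, Finset.mem_filter, Finset.mem_Icc]
      refine ⟨⟨g1.one_lt.le, ?_⟩, g1⟩
      rw [Nat.le_div_iff_mul_le (by omega)]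
      omega
    · intro n hn n' hn' h
      rw [Finset.mem_coe, Finset.mem_filter] at hn hn'
      have e1 : gpf n * (n / gpf n) = n :=
        Nat.mul_div_cancel' (gpf_spec (hmemS n hn.1).1).2.1
      have e2 : gpf n' * (n' / gpf n') = n' :=
        Nat.mul_div_cancel' (gpf_spec (hmemS n' hn'.1).1).2.1
      rw [hn.2] at e1
      rw [hn'.2] at e2
      rw [← e1, ← e2, h]
  have hterm : ∀ m ∈ M', (Nat.primeCounting (N / m) : ℝ) ≤
      2 * C0 * (k + 2) * (N / Real.log N) * (1 / (m : ℝ)) := by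
    intro m hm
    rw [hM', Finset.mem_filter, mem_upto] at hm
    obtain ⟨⟨⟨h1, h2⟩, h3⟩, h4, h5, h6⟩ := hm
    have hm0 : (0 : ℝ) < m := by exact_mod_cast h1
    have h7 := (hch (N / m) h6).2
    have hdm := Nat.div_add_mod N m
    have hmod := Nat.mod_lt N (show 0 < m by omega)
    have hf1 : ((N / m : ℕ) : ℝ) ≤ (N : ℝ) / m := Nat.cast_div_le
    have hf2 : (N : ℝ) / m < ((N / m : ℕ) : ℝ) + 1 := by
      rw [div_lt_iff₀ hm0]
      have : N < (N / m + 1) * m := by
        calc N = m * (N / m) + N % m := hdm.symm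
          _ < m * (N / m) + m := by omega
          _ = (N / m + 1) * m := by ring
      exact_mod_cast this
    have h8 := div_log_le h6 hf1 hf2
    have hlog : Real.log N / (k + 2) ≤ Real.log ((N : ℝ) / m) := by
      have h9 : (m : ℝ) ^ (k + 2) ≤ (N : ℝ) ^ (k + 1) := by exact_mod_cast h5
      have h10 := Real.log_le_log (by positivity) h9
      rw [Real.log_pow, Real.log_pow] at h10
      push_cast at h10
      rw [Real.log_div hN0.ne' hm0.ne', div_le_iff₀ (by positivity)]
      linarith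
    have hk2 : 0 < Real.log N / ((k : ℝ) + 2) := by positivity
    have h11 : (N : ℝ) / m / Real.log ((N : ℝ) / m) ≤ (N : ℝ) / m / (Real.log N / (k + 2)) :=
      div_le_div_of_nonneg_left (by positivity) hk2 hlog
    calc (Nat.primeCounting (N / m) : ℝ) ≤ C0 * (((N / m : ℕ) : ℝ) / Real.log ((N / m : ℕ) : ℝ)) := h7
      _ ≤ C0 * (2 * ((N : ℝ) / m / Real.log ((N : ℝ) / m))) := mul_le_mul_of_nonneg_left h8 hC0.le
      _ ≤ C0 * (2 * ((N : ℝ) / m / (Real.log N / (k + 2)))) := by
        apply mul_le_mul_of_nonneg_left _ hC0.le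
        linarith
      _ = _ := by
        field_simp
  have h1 : (S.card : ℝ) ≤ ∑ m ∈ M', 2 * C0 * (k + 2) * (N / Real.log N) * (1 / (m : ℝ)) := by
    rw [hcard]
    push_cast
    refine Finset.sum_le_sum fun m hm => ?_
    refine le_trans ?_ (hterm m hm)
    exact_mod_cast hfib m hm
  have h2 : ∑ m ∈ M', (1 : ℝ) / m ≤ C' * T k N := by
    refine le_trans ?_ (hd (zz N) N hz1 hz4)
    refine Finset.sum_le_sum_of_subset_of_nonneg ?_ fun _ _ _ => by positivity
    intro m hm
    rw [hM', Finset.mem_filter] at hm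
    rw [Finset.mem_filter]
    exact ⟨hm.1, hm.2.1⟩
  rw [← Finset.mul_sum] at h1
  refine h1.trans ?_
  calc 2 * C0 * (k + 2) * (N / Real.log N) * ∑ m ∈ M', (1 : ℝ) / m ≤
      2 * C0 * (k + 2) * (N / Real.log N) * (C' * T k N) :=
        mul_le_mul_of_nonneg_left h2 (by positivity)
    _ = _ := by ring

end Pool.Agent.Q211.MM
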