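import Pool.Agent.Q147.MM.Stm

/-!
# Project MM (helper147): common tools
-/

set_option autoImplicit false

namespace Pool.Agent.Q211.MM

open Finset Filter Topology
open Pool.Agent.Q147.MM

theorem one_mem_Sk (k : ℕ) : 1 ∈ Sk k := by
  refine ⟨one_ne_zero, ?_⟩
  simp

theorem T_nonneg (k x : ℕ) : 0 ≤ T k x := Finset.sum_nonneg fun _ _ => by positivity

theorem T_mono (k : ℕ) {x y : ℕ} (h : x ≤ y) : T k x ≤ T k y := by
  refine Finset.sum_le_sum_of_subset_of_nonneg ?_ fun _ _ _ => by positivity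
  intro a ha
  rw [mem_upto] at ha ⊢
  exact ⟨⟨ha.1.1, ha.1.2.trans h⟩, ha.2⟩

theorem one_le_T (k : ℕ) {x : ℕ} (hx : 1 ≤ x) : 1 ≤ T k x := by
  have h : (1 : ℕ) ∈ upto (Sk k) x := mem_upto.2 ⟨⟨le_rfl, hx⟩, one_mem_Sk k⟩
  have h1 := Finset.single_le_sum (f := fun m : ℕ => (1 : ℝ) / m) (fun _ _ => by positivity) h
  rw [T]
  refine le_trans ?_ h1
  simp

/-- the greatest prime factor -/
theorem exists_gpf {n : ℕ} (hn : 2 ≤ n) : ∃ p : ℕ, p.Prime ∧ p ∣ n ∧ ∀ q : ℕ, q.Prime → q ∣ n →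
    q ≤ p := by
  have h0 : n.primeFactors.Nonempty := Nat.nonempty_primeFactors.2 (by omega)
  obtain ⟨p, hp, hmax⟩ := n.primeFactors.exists_max_image id h0
  rw [Nat.mem_primeFactors] at hp
  refine ⟨p, hp.1, hp.2.1, fun q hq hqn => hmax q ?_⟩
  rw [Nat.mem_primeFactors]
  exact ⟨hq, hqn, by omega⟩

open scoped Classical in
/-- the greatest prime factor (as a function) -/
noncomputable def gpf (n : ℕ) : ℕ := if h : 2 ≤ n then (exists_gpf h).choose else 1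

theorem gpf_spec {n : ℕ} (hn : 2 ≤ n) : (gpf n).Prime ∧ gpf n ∣ n ∧ ∀ q : ℕ, q.Prime → q ∣ n →
    q ≤ gpf n := by
  unfold gpf
  rw [dif_pos hn]
  exact (exists_gpf hn).choose_spec

/-- a number with at most `k` prime factors, all of them at most `p`, is at most `p ^ k` -/
theorem le_pow_of_factors {n p k : ℕ} (hn : n ≠ 0) (hp : 1 ≤ p)
    (hk : ArithmeticFunction.cardFactors n ≤ k) (h : ∀ q : ℕ, q.Prime → q ∣ n → q ≤ p) :
    n ≤ p ^ k := by
  have h1 := List.prod_le_pow_card n.primeFactorsList p fun q hq => by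
    rw [Nat.mem_primeFactorsList hn] at hq
    exact h q hq.1 hq.2
  rw [Nat.prod_primeFactorsList hn, ← ArithmeticFunction.cardFactors_apply] at h1
  exact h1.trans (Nat.pow_le_pow_right hp hk)

/-- removing a prime factor -/
theorem div_mem_Sk {n p k : ℕ} (hn : n ∈ Sk (k + 1)) (hp : p.Prime) (hpn : p ∣ n) : n / p ∈ Sk k := by
  obtain ⟨m, rfl⟩ := hpn
  obtain ⟨h0, hk⟩ := hn
  have hm : m ≠ 0 := by
    rintro rfl
    simp at h0
  rw [Nat.mul_div_cancel_left _ hp.pos]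
  refine ⟨hm, ?_⟩
  rw [ArithmeticFunction.cardFactors_mul hp.ne_zero hm,
    ArithmeticFunction.cardFactors_apply_prime hp] at hk
  omega

/-- `zz N` is at least `N ^ (1/4)` -/
theorem le_zz_pow {N : ℕ} (hN : 16 ^ 8 ≤ N) : N ≤ zz N ^ 4 := by
  have hN0 : (0 : ℝ) < N := by
    have : 0 < N := by omega
    exact_mod_cast this
  have hN1 : ((16 : ℝ) ^ 8) ≤ N := by exact_mod_cast hN
  obtain ⟨u, hu⟩ : ∃ u : ℝ, u = (N : ℝ) ^ (1 / 8 : ℝ) := ⟨_, rfl⟩
  have hu0 : 0 < u := by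
    rw [hu]
    positivity
  have hu8 : u ^ 8 = N := by
    rw [hu, ← Real.rpow_natCast, ← Real.rpow_mul hN0.le]
    norm_num
  have hu16 : 16 ≤ u := by
    by_contra h
    push Not at h
    have h1 : u ^ 8 < 16 ^ 8 := pow_lt_pow_left₀ h hu0.le (by norm_num)
    linarith
  have hsq : √(N : ℝ) = u ^ 4 := by
    rw [← hu8, show u ^ 8 = (u ^ 4) ^ 2 by ring, Real.sqrt_sq (by positivity)]
  have hlog : Real.log N ≤ 8 * u := by
    have h1 := Real.log_le_rpow_div hN0.le (show (0 : ℝ) < 1 / 8 by norm_num)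
    rw [← hu] at h1
    linarith
  have hlog0 : 0 < Real.log N := Real.log_pos (by linarith)
  have h1 : u ^ 2 + 1 ≤ √(N : ℝ) / Real.log N := by
    rw [hsq, le_div_iff₀ hlog0]
    have h2 : (u ^ 2 + 1) * Real.log N ≤ (u ^ 2 + 1) * (8 * u) :=
      mul_le_mul_of_nonneg_left hlog (by positivity)
    have h3 : (u ^ 2 + 1) * (8 * u) ≤ u ^ 4 := by
      have h4 : (u ^ 2 + 1) * 8 ≤ u ^ 3 := by nlinarith [sq_nonneg u]
      calc (u ^ 2 + 1) * (8 * u) = (u ^ 2 + 1) * 8 * u := by ring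
        _ ≤ u ^ 3 * u := mul_le_mul_of_nonneg_right h4 hu0.le
        _ = u ^ 4 := by ring
    linarith
  have h2 : u ^ 2 ≤ (zz N : ℝ) := by
    have h3 := Nat.lt_floor_add_one (√(N : ℝ) / Real.log N)
    unfold zz
    linarith
  have h3 : (N : ℝ) ≤ (zz N : ℝ) ^ 4 := by
    rw [← hu8, show u ^ 8 = (u ^ 2) ^ 4 by ring]
    exact pow_le_pow_left₀ (by positivity) h2 4
  exact_mod_cast h3

theorem log_gt_one {N : ℕ} (hN : 3 ≤ N) : 1 < Real.log N := by
  have h1 : Real.exp 1 < 2.7182818286 := Real.exp_one_lt_d9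
  have h2 : (3 : ℝ) ≤ N := by exact_mod_cast hN
  rw [Real.lt_log_iff_exp_lt (by linarith)]
  linarith

theorem zz_real_le (N : ℕ) (hN : 3 ≤ N) : (zz N : ℝ) ≤ √(N : ℝ) / Real.log N := by
  have := log_gt_one hN
  exact Nat.floor_le (by positivity)

theorem zz_sq_le {N : ℕ} (hN : 3 ≤ N) : (zz N : ℝ) ^ 2 ≤ N / Real.log N ^ 2 := by
  have h1 := pow_le_pow_left₀ (Nat.cast_nonneg _) (zz_real_le N hN) 2
  rwa [div_pow, Real.sq_sqrt (Nat.cast_nonneg _)] at h1

theorem zz_lt {N : ℕ} (hN : 3 ≤ N) : zz N < N := by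
  have h1 := log_gt_one hN
  have h2 : (3 : ℝ) ≤ N := by exact_mod_cast hN
  have h3 : √(N : ℝ) ≤ N := by
    rw [Real.sqrt_le_left (by linarith)]
    nlinarith
  have h4 : (zz N : ℝ) < N := by
    refine (zz_real_le N hN).trans_lt ?_
    rw [div_lt_iff₀ (by linarith)]
    have : 0 < (N : ℝ) := by linarith
    nlinarith
  exact_mod_cast h4

end Pool.Agent.Q211.MM
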